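import Mathlib

/-!
# Jet graphs of diameter-two graphs

If `G` has diameter `2` and its graphs of `1`-jets and of `2`-jets are co-chordal, then `G`
is complete multipartite and all its jet graphs are co-chordal.  Hence for every `n ≥ 2`
there is no co-chordal graph of diameter `2` with co-chordal jet graphs of orders
`1, …, n` whose jet graph of order `n + 1` is not co-chordal.
-/

namespace Pool.Agent.Results.MP_bdbea1_co.NoLateLoss

/-- A graph is chordal if every cycle of length at least `4` has a chord. -/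
def Chordal {W : Type*} (H : SimpleGraph W) : Prop :=
  ∀ m : ℕ, 4 ≤ m → ∀ c : ZMod m → W, Function.Injective c →
    (∀ i, H.Adj (c i) (c (i + 1))) →
    ∃ i j, j ≠ i + 1 ∧ i ≠ j + 1 ∧ H.Adj (c i) (c j)

/-- A graph is co-chordal if its complement is chordal. -/
def CoChordal {W : Type*} (H : SimpleGraph W) : Prop := Chordal Hᶜ

/-- The graph of `s`-jets: vertices `x_{i,a}` with `0 ≤ a ≤ s`, and `x_{i,a}`, `x_{k,b}` are
adjacent exactly when `x_i`, `x_k` are adjacent in `G` and `a + b ≤ s`. -/
def jets {V : Type*} (s : ℕ) (G : SimpleGraph V) : SimpleGraph (V × Fin (s + 1)) where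
  Adj p q := G.Adj p.1 q.1 ∧ (p.2 : ℕ) + (q.2 : ℕ) ≤ s
  symm := ⟨fun _ _ h => ⟨h.1.symm, by rw [add_comm]; exact h.2⟩⟩
  loopless := ⟨fun _ h => G.loopless.irrefl _ h.1⟩

/-- a co-chordal graph contains no two independent edges -/
lemma no_two_edges {W : Type*} {J : SimpleGraph W} (h : CoChordal J) {u₁ u₂ u₃ u₄ : W}
    (h12 : J.Adj u₁ u₂) (h34 : J.Adj u₃ u₄) (h13 : ¬ J.Adj u₁ u₃) (h14 : ¬ J.Adj u₁ u₄)
    (h23 : ¬ J.Adj u₂ u₃) (h24 : ¬ J.Adj u₂ u₄) (n13 : u₁ ≠ u₃) (n14 : u₁ ≠ u₄)
    (n23 : u₂ ≠ u₃) (n24 : u₂ ≠ u₄) : False := by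
  let c : Fin 4 → W := ![u₁, u₃, u₂, u₄]
  have hinj : Function.Injective c := by
    intro i j hij
    have n12 := h12.ne
    have n34 := h34.ne
    fin_cases i <;> fin_cases j <;> simp [c] at hij ⊢ <;>
      first
        | exact absurd hij n12 | exact absurd hij n12.symm | exact absurd hij n13
        | exact absurd hij n13.symm | exact absurd hij n14 | exact absurd hij n14.symm
        | exact absurd hij n23 | exact absurd hij n23.symm | exact absurd hij n24
        | exact absurd hij n24.symm | exact absurd hij n34 | exact absurd hij n34.symm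
  have hadj : ∀ i : Fin 4, Jᶜ.Adj (c i) (c (i + 1)) := by
    intro i
    fin_cases i
    · exact (SimpleGraph.compl_adj _ _ _).mpr ⟨n13, h13⟩
    · exact (SimpleGraph.compl_adj _ _ _).mpr ⟨n23.symm, fun h => h23 h.symm⟩
    · exact (SimpleGraph.compl_adj _ _ _).mpr ⟨n24, h24⟩
    · exact (SimpleGraph.compl_adj _ _ _).mpr ⟨n14.symm, fun h => h14 h.symm⟩
  obtain ⟨i, j, h1, h2, h3⟩ := h 4 le_rfl c hinj hadj
  have key : ∀ i j : Fin 4, j ≠ i + 1 → i ≠ j + 1 → Jᶜ.Adj (c i) (c j) → False := by
    intro i j h1 h2 h3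
    rw [SimpleGraph.compl_adj] at h3
    obtain ⟨h3, h4⟩ := h3
    fin_cases i <;> fin_cases j <;>
      first
        | exact h1 rfl
        | exact h2 rfl
        | exact h3 rfl
        | exact h4 h12
        | exact h4 h12.symm
        | exact h4 h34
        | exact h4 h34.symm
  exact key i j h1 h2 h3

/-- co-chordal `1`-jets: no induced path on four vertices `a - b - c - d` -/
lemma no_path {V : Type*} {G : SimpleGraph V} (h : CoChordal (jets 1 G)) {a b c d : V}
    (hab : G.Adj a b) (hbc : G.Adj b c) (hcd : G.Adj c d) (hac : ¬ G.Adj a c)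
    (hbd : ¬ G.Adj b d) (had : ¬ G.Adj a d) : False := by
  refine no_two_edges h (u₁ := (b, 1)) (u₂ := (a, 0)) (u₃ := (c, 1)) (u₄ := (d, 0))
    ⟨hab.symm, by simp⟩ ⟨hcd, by simp⟩ ?_ ?_ ?_ ?_ ?_ ?_ ?_ ?_
  · intro h'; have := h'.2; simp at this
  · intro h'; exact hbd h'.1
  · intro h'; exact hac h'.1
  · intro h'; exact had h'.1
  · intro h'; exact hbc.ne (congrArg Prod.fst h')
  · intro h'
    have := congrArg (fun p => (p.2 : ℕ)) h'
    simp at this
  · intro h'
    have := congrArg (fun p => (p.2 : ℕ)) h'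
    simp at this
  · intro h'
    have : a = d := congrArg Prod.fst h'
    subst this
    exact hac hcd.symm

/-- co-chordal `2`-jets: no triangle `z u w` with a further vertex adjacent to `z` only -/
lemma no_paw {V : Type*} {G : SimpleGraph V} (h : CoChordal (jets 2 G)) {z v u w : V}
    (hzv : G.Adj z v) (hzu : G.Adj z u) (hzw : G.Adj z w) (huw : G.Adj u w)
    (hvu : ¬ G.Adj v u) (hvw : ¬ G.Adj v w) : False := by
  refine no_two_edges h (u₁ := (z, 2)) (u₂ := (v, 0)) (u₃ := (u, 1)) (u₄ := (w, 1))
    ⟨hzv, by simp⟩ ⟨huw, by simp⟩ ?_ ?_ ?_ ?_ ?_ ?_ ?_ ?_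
  · intro h'; have := h'.2; simp at this
  · intro h'; have := h'.2; simp at this
  · intro h'; exact hvu h'.1
  · intro h'; exact hvw h'.1
  · intro h'; exact hzu.ne (congrArg Prod.fst h')
  · intro h'; exact hzw.ne (congrArg Prod.fst h')
  · intro h'
    have := congrArg (fun p => (p.2 : ℕ)) h'
    simp at this
  · intro h'
    have := congrArg (fun p => (p.2 : ℕ)) h'
    simp at this

/-- In a graph of diameter `2` two distinct non-adjacent vertices have a common neighbour. -/
lemma common_nbr {V : Type*} {G : SimpleGraph V} (hc : G.Connected) (hd : G.diam = 2)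
    {u v : V} (hne : u ≠ v) (huv : ¬ G.Adj u v) : ∃ z, G.Adj z u ∧ G.Adj z v := by
  have htop : G.ediam ≠ ⊤ := SimpleGraph.ediam_ne_top_of_diam_ne_zero (by rw [hd]; norm_num)
  have hle : G.dist u v ≤ 2 := hd ▸ SimpleGraph.dist_le_diam htop
  obtain ⟨p, hp⟩ := hc.exists_walk_length_eq_dist u v
  have hlen : p.length ≤ 2 := hp ▸ hle
  match p, hlen with
  | .nil, _ => exact absurd rfl hne
  | .cons h .nil, _ => exact absurd h huv
  | .cons (v := z) h (.cons h' .nil), _ => exact ⟨z, h.symm, h'⟩
  | .cons _ (.cons _ (.cons _ _)), hl => simp at hl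

/-- Under the hypotheses non-adjacency is transitive: `G` is complete multipartite. -/
lemma nonadj_trans {V : Type*} {G : SimpleGraph V} (hc : G.Connected) (hd : G.diam = 2)
    (h1 : CoChordal (jets 1 G)) (h2 : CoChordal (jets 2 G)) {u v w : V}
    (huv : ¬ G.Adj u v) (hvw : ¬ G.Adj v w) : ¬ G.Adj u w := by
  intro huw
  have hne : v ≠ w := by
    rintro rfl
    exact huv huw
  obtain ⟨z, hzv, hzw⟩ := common_nbr hc hd hne hvw
  by_cases hzu : G.Adj z u
  · exact no_paw h2 hzv hzu hzw huw (fun h => huv h.symm) hvw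
  · exact no_path h1 hzv.symm hzw huw.symm hvw hzu (fun h => huv h.symm)

/-- All jet graphs of a complete multipartite graph are co-chordal. -/
lemma coChordal_jets {V : Type*} {G : SimpleGraph V}
    (htr : ∀ u v w : V, ¬ G.Adj u v → ¬ G.Adj v w → ¬ G.Adj u w) (s : ℕ) :
    CoChordal (jets s G) := by
  intro m hm c hinj hadj
  by_contra hno
  push Not at hno
  have hcast : ∀ k : ℕ, 0 < k → k < 4 → ((k : ℕ) : ZMod m) ≠ 0 := by
    intro k hk0 hk4 h
    rw [ZMod.natCast_eq_zero_iff] at h
    have := Nat.le_of_dvd hk0 h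
    omega
  have e1 : (1 : ZMod m) ≠ 0 := by simpa using hcast 1 (by norm_num) (by norm_num)
  have e2 : (2 : ZMod m) ≠ 0 := by simpa using hcast 2 (by norm_num) (by norm_num)
  have e3 : (3 : ZMod m) ≠ 0 := by simpa using hcast 3 (by norm_num) (by norm_num)
  -- non-consecutive vertices at distance two are adjacent in the jet graph
  have hfar : ∀ i : ZMod m, G.Adj (c i).1 (c (i + 2)).1 ∧
      ((c i).2 : ℕ) + ((c (i + 2)).2 : ℕ) ≤ s := by
    intro i
    have hA : i + 2 ≠ i + 1 := by
      intro h
      apply e1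
      have : (i + 2) - (i + 1) = 0 := by rw [h, sub_self]
      linear_combination this
    have hB : i ≠ i + 2 + 1 := by
      intro h
      apply e3
      linear_combination -h
    have hC : c i ≠ c (i + 2) := by
      intro h
      have := hinj h
      apply e2
      linear_combination -this
    have := hno i (i + 2) hA hB
    rw [SimpleGraph.compl_adj, not_and, not_not] at this
    exact this hC
  have hcons : ∀ i : ZMod m, s < ((c i).2 : ℕ) + ((c (i + 1)).2 : ℕ) := by
    intro i
    have hne : ∀ j : ZMod m, ¬ G.Adj (c j).1 (c (j + 1)).1 ∨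
        s < ((c j).2 : ℕ) + ((c (j + 1)).2 : ℕ) := by
      intro j
      have := hadj j
      rw [SimpleGraph.compl_adj] at this
      by_cases hG : G.Adj (c j).1 (c (j + 1)).1
      · right
        by_contra hle
        push Not at hle
        exact this.2 ⟨hG, hle⟩
      · exact Or.inl hG
    rcases hne i with hi | hi
    · -- same part: contradiction
      exfalso
      obtain ⟨a1, a2⟩ := hfar i
      obtain ⟨b1, b2⟩ := hfar (i - 1)
      have r1 : i - 1 + 2 = i + 1 := by ring
      have r2 : i - 1 + 1 = i := by ring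
      have r3 : i + 1 + 1 = i + 2 := by ring
      rw [r1] at b1 b2
      have c1 : s < ((c (i + 1)).2 : ℕ) + ((c (i + 2)).2 : ℕ) := by
        have := hne (i + 1)
        rw [r3] at this
        rcases this with h | h
        · exact absurd a1 (htr _ _ _ hi h)
        · exact h
      have c2 : s < ((c (i - 1)).2 : ℕ) + ((c i).2 : ℕ) := by
        have := hne (i - 1)
        rw [r2] at this
        rcases this with h | h
        · exact absurd b1 (htr _ _ _ h hi)
        · exact h
      omega
    · exact hi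
  have f0 := hfar 0
  have f1 := hfar 1
  have g0 := hcons 0
  have g2 := hcons 2
  have r1 : (1 : ZMod m) + 2 = 2 + 1 := by ring
  rw [r1] at f1
  rw [zero_add] at f0 g0
  have := f0.2
  have := f1.2
  omega

/-- **Main theorem.**  A graph of diameter `2` whose graphs of `1`-jets and `2`-jets are
co-chordal has all its jet graphs co-chordal.  Consequently the question Q1 has a negative
answer for every `n ≥ 2`. -/
theorem result :
    (∀ (V : Type) (G : SimpleGraph V), G.Connected → G.diam = 2 →
      CoChordal (jets 1 G) → CoChordal (jets 2 G) → ∀ s, CoChordal (jets s G)) ∧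
    (∀ n : ℕ, 2 ≤ n → ¬ ∃ (V : Type) (_ : Finite V) (G : SimpleGraph V),
      G.Connected ∧ G.diam = 2 ∧ CoChordal G ∧
        (∀ i, 1 ≤ i → i ≤ n → CoChordal (jets i G)) ∧ ¬ CoChordal (jets (n + 1) G)) := by
  have main : ∀ (V : Type) (G : SimpleGraph V), G.Connected → G.diam = 2 →
      CoChordal (jets 1 G) → CoChordal (jets 2 G) → ∀ s, CoChordal (jets s G) := by
    intro V G hc hd h1 h2 s
    exact coChordal_jets (fun u v w huv hvw => nonadj_trans hc hd h1 h2 huv hvw) s
  refine ⟨main, ?_⟩
  rintro n hn ⟨V, -, G, hc, hd, -, hi, hnot⟩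
  exact hnot (main V G hc hd (hi 1 le_rfl (by omega)) (hi 2 (by norm_num) hn) (n + 1))

end Pool.Agent.Results.MP_bdbea1_co.NoLateLoss
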